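import Pool.Agent.Run7.h136.LK.Mx

set_option autoImplicit false

/-!
# Project LK, piece KINM: the kinetic inequality in the general case
-/

open MeasureTheory Set Filter Topology
open scoped Matrix

namespace Pool.Agent.Run7.H136.LK

open Pool.Agent.Run7.H894.LK
open Pool.Agent.N537.RS (LL hdim)
open LTd (Mat)

theorem sys_add {n : ℕ} {R S Q R' S' Q' : ℝ → Mat n} (h : LTd.Sys R S Q)
    (h' : LTd.Sys R' S' Q') :
    LTd.Sys (fun t => R t + R' t) (fun t => S t + S' t) (fun t => Q t + Q' t) := by
  refine ⟨?_, ?_, ?_, ?_, ?_, ?_⟩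
  · intro x i j
    simp only [Matrix.add_apply]
    rw [h.symR, h'.symR]
  · intro x i j
    simp only [Matrix.add_apply]
    refine ((h.der x i j).fun_add (h'.der x i j)).congr_deriv ?_
    ring
  · intro i j
    simp only [Matrix.add_apply]
    exact (h.cS i j).add (h'.cS i j)
  · intro i j
    simp only [Matrix.add_apply]
    exact (h.cQ i j).add (h'.cQ i j)
  · obtain ⟨M, hM⟩ := h.supp
    obtain ⟨M', hM'⟩ := h'.supp
    refine ⟨max M M', fun x hx => ?_⟩
    obtain ⟨a1, a2, a3⟩ := hM x (lt_of_le_of_lt (le_max_left _ _) hx)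
    obtain ⟨b1, b2, b3⟩ := hM' x (lt_of_le_of_lt (le_max_right _ _) hx)
    simp only [a1, a2, a3, b1, b2, b3, add_zero, and_self]
  · intro x X Y
    have h1 := h.key x X Y
    have h2 := h'.key x X Y
    simp only [Matrix.mul_add, Matrix.add_mul, Matrix.trace_add]
    linarith

theorem sys_smul {n : ℕ} {R S Q : ℝ → Mat n} (h : LTd.Sys R S Q) {c : ℝ} (hc : 0 ≤ c) :
    LTd.Sys (fun t => c • R t) (fun t => c • S t) (fun t => c • Q t) := by
  refine ⟨?_, ?_, ?_, ?_, ?_, ?_⟩
  · intro x i j
    simp only [Matrix.smul_apply]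
    rw [h.symR]
  · intro x i j
    simp only [Matrix.smul_apply, smul_eq_mul]
    refine ((h.der x i j).const_mul c).congr_deriv ?_
    ring
  · intro i j
    simp only [Matrix.smul_apply, smul_eq_mul]
    exact continuous_const.mul (h.cS i j)
  · intro i j
    simp only [Matrix.smul_apply, smul_eq_mul]
    exact continuous_const.mul (h.cQ i j)
  · obtain ⟨M, hM⟩ := h.supp
    refine ⟨M, fun x hx => ?_⟩
    obtain ⟨a1, a2, a3⟩ := hM x hx
    simp only [a1, a2, a3, smul_zero, and_self]
  · intro x X Y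
    have h1 := mul_nonneg hc (h.key x X Y)
    simp only [Matrix.mul_smul, Matrix.smul_mul, Matrix.trace_smul, smul_eq_mul]
    linarith

theorem tr_XdY {n : ℕ} (X Y : Mat n) (d : Fin n → ℝ) :
    (X * Matrix.diagonal d * Yᵀ).trace = ∑ i, ∑ j, X i j * d j * Y i j := by
  simp only [Matrix.trace, Matrix.diag]
  refine Finset.sum_congr rfl fun i _ => ?_
  rw [Matrix.mul_apply]
  refine Finset.sum_congr rfl fun j _ => ?_
  rw [Matrix.mul_diagonal, Matrix.transpose_apply]

theorem sys_eta {n : ℕ} {η η' : ℝ → ℝ} (hη : ∀ t, HasDerivAt η (η' t) t) (hc : Continuous η')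
    {M : ℝ} (hM : ∀ t, M < |t| → η t = 0 ∧ η' t = 0) {d : Fin n → ℝ} (hd : ∀ i, 0 ≤ d i) :
    LTd.Sys (fun t => (η t ^ 2) • Matrix.diagonal d) (fun t => (η' t * η t) • Matrix.diagonal d)
      (fun t => (η' t ^ 2) • Matrix.diagonal d) := by
  have hηc : Continuous η := continuous_iff_continuousAt.2 fun t => (hη t).continuousAt
  have hsym : ∀ i j, Matrix.diagonal d i j = Matrix.diagonal d j i := by
    intro i j
    by_cases hij : i = j
    · subst hij; rfl
    · rw [Matrix.diagonal_apply_ne _ hij, Matrix.diagonal_apply_ne _ (Ne.symm hij)]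
  refine ⟨?_, ?_, ?_, ?_, ?_, ?_⟩
  · intro x i j
    simp only [Matrix.smul_apply]
    rw [hsym]
  · intro x i j
    simp only [Matrix.smul_apply, smul_eq_mul]
    refine (((hη x).fun_pow 2).mul_const (Matrix.diagonal d i j)).congr_deriv ?_
    rw [hsym j i]
    simp only [Nat.cast_ofNat, Nat.add_one_sub_one, pow_one]
    ring
  · intro i j
    simp only [Matrix.smul_apply, smul_eq_mul]
    exact (hc.mul hηc).mul continuous_const
  · intro i j
    simp only [Matrix.smul_apply, smul_eq_mul]
    exact (hc.pow 2).mul continuous_const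
  · refine ⟨M, fun x hx => ?_⟩
    obtain ⟨a1, a2⟩ := hM x hx
    simp [a1, a2]
  · intro x X Y
    simp only [Matrix.mul_smul, Matrix.smul_mul, Matrix.trace_smul, smul_eq_mul]
    rw [tr_XdY, tr_XdY, tr_XdY]
    have e : η' x ^ 2 * ∑ i, ∑ j, X i j * d j * X i j -
        2 * (η' x * η x * ∑ i, ∑ j, X i j * d j * Y i j) +
        η x ^ 2 * ∑ i, ∑ j, Y i j * d j * Y i j =
        ∑ i, ∑ j, d j * (η' x * X i j - η x * Y i j) ^ 2 := by
      simp only [Finset.mul_sum]
      rw [← Finset.sum_sub_distrib, ← Finset.sum_add_distrib]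
      refine Finset.sum_congr rfl fun i _ => ?_
      rw [← Finset.sum_sub_distrib, ← Finset.sum_add_distrib]
      refine Finset.sum_congr rfl fun j _ => ?_
      ring
    rw [e]
    exact Finset.sum_nonneg fun i _ => Finset.sum_nonneg fun j _ =>
      mul_nonneg (hd j) (sq_nonneg _)

theorem bf_comb {n : ℕ} (M : Mat n) (a c : ℝ) (d : Fin n → ℝ) (v : Fin n → ℝ) {M' : Mat n}
    (h : ∀ i j, M' i j = c * (M i j + a * Matrix.diagonal d i j)) :
    bf M' v v = c * (bf M v v + a * ∑ i, v i ^ 2 * d i) := by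
  unfold bf
  have h1 : ∀ i, ∑ j, v i * v j * M' i j =
      c * (∑ j, v i * v j * M i j + a * (v i ^ 2 * d i)) := by
    intro i
    have h2 : ∑ j, v i * v j * (a * Matrix.diagonal d i j) = a * (v i ^ 2 * d i) := by
      rw [Finset.sum_eq_single i]
      · rw [Matrix.diagonal_apply_eq]; ring
      · intro j _ hj
        rw [Matrix.diagonal_apply_ne _ (Ne.symm hj)]; ring
      · intro hi; exact absurd (Finset.mem_univ _) hi
    rw [← h2, ← Finset.sum_add_distrib, Finset.mul_sum]
    refine Finset.sum_congr rfl fun j _ => ?_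
    rw [h]; ring
  simp only [h1]
  rw [← Finset.mul_sum, Finset.sum_add_distrib, ← Finset.mul_sum]

theorem bf_Tot_nonneg {n : ℕ} {R S Q : ℝ → Mat n} (h : LTd.Sys R S Q) (v : Fin n → ℝ) :
    0 ≤ bf (LTd.Tot R) v v := by
  have e : bf (LTd.Tot R) v v = ∫ t, ∑ i, ∑ j, v i * v j * R t i j := by
    rw [integral_finsetSum]
    · unfold bf
      refine Finset.sum_congr rfl fun i _ => ?_
      rw [integral_finsetSum]
      · refine Finset.sum_congr rfl fun j _ => ?_
        rw [integral_const_mul]
        rfl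
      · exact fun j _ => (sys_intR h i j).const_mul _
    · exact fun i _ => integrable_finsetSum _ fun j _ => (sys_intR h i j).const_mul _
  rw [e]
  exact integral_nonneg fun t => (LTd.sys_psd h t).2 v

theorem t_KINM (hP : S_KINP) : S_KINM := by
  intro k hk n R S Q hs lab g hg hblk f hf hbel
  have hk' : (6 : ℝ) ≤ k := by exact_mod_cast hk
  have hk0 : (0 : ℝ) < k := by linarith
  set w : Fin n → ℝ := fun i => (g (lab i) : ℝ) with hw
  have hw1 : ∀ i, 1 ≤ w i := fun i => by
    simp only [hw]; exact_mod_cast (hg i).1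
  have hw0 : ∀ i, 0 < w i := fun i => lt_of_lt_of_le one_pos (hw1 i)
  -- the cut-off function
  set η : ℝ → ℝ := fun t => (default : ContDiffBump (0 : ℝ)) t with hη
  have hηsm : ContDiff ℝ 1 η := (default : ContDiffBump (0 : ℝ)).contDiff
  set η' : ℝ → ℝ := deriv η with hη'
  have hηd : ∀ t, HasDerivAt η (η' t) t := fun t =>
    ((hηsm.differentiable one_ne_zero) t).hasDerivAt
  have hη'c : Continuous η' := hηsm.continuous_deriv le_rfl
  have hηc : Continuous η := hηsm.continuous
  have hηcs : HasCompactSupport η := (default : ContDiffBump (0 : ℝ)).hasCompactSupport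
  have hη'cs : HasCompactSupport η' := hηcs.deriv
  have hη0 : η 0 = 1 := by
    simp only [hη]
    exact (default : ContDiffBump (0 : ℝ)).one_of_mem_closedBall
      (Metric.mem_closedBall_self (default : ContDiffBump (0 : ℝ)).rIn_pos.le)
  obtain ⟨M, hM⟩ : ∃ M : ℝ, ∀ t, M < |t| → η t = 0 ∧ η' t = 0 := by
    obtain ⟨a, ha⟩ := (hηcs.isCompact.isBounded.subset_closedBall (0 : ℝ))
    obtain ⟨b, hb⟩ := (hη'cs.isCompact.isBounded.subset_closedBall (0 : ℝ))
    refine ⟨max a b, fun t ht => ⟨?_, ?_⟩⟩
    · by_contra hne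
      have h1 := ha (subset_tsupport _ (Function.mem_support.2 hne))
      rw [Metric.mem_closedBall, Real.dist_eq, sub_zero] at h1
      exact absurd (lt_of_le_of_lt (le_max_left a b) ht) (not_lt.2 h1)
    · by_contra hne
      have h1 := hb (subset_tsupport _ (Function.mem_support.2 hne))
      rw [Metric.mem_closedBall, Real.dist_eq, sub_zero] at h1
      exact absurd (lt_of_le_of_lt (le_max_right a b) ht) (not_lt.2 h1)
  set A0 : ℝ := ∫ t, η t ^ 2 with hA0
  set A1 : ℝ := ∫ t, η' t ^ 2 with hA1
  set C : ℝ := ∫ t, Real.exp (2 * t) * η t ^ 2 with hC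
  have hi0 : Integrable fun t => η t ^ 2 := by
    refine (hηc.pow 2).integrable_of_hasCompactSupport (cs_of_supp (M := M) fun t ht => ?_)
    simp [(hM t ht).1]
  have hi1 : Integrable fun t => η' t ^ 2 := by
    refine (hη'c.pow 2).integrable_of_hasCompactSupport (cs_of_supp (M := M) fun t ht => ?_)
    simp [(hM t ht).2]
  have hiC : Integrable fun t => Real.exp (2 * t) * η t ^ 2 := by
    have hc : Continuous fun t => Real.exp (2 * t) * η t ^ 2 := by fun_prop
    refine hc.integrable_of_hasCompactSupport (cs_of_supp (M := M) fun t ht => ?_)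
    simp [(hM t ht).1]
  have hA0p : 0 < A0 := by
    refine (hηc.pow 2).integral_pos_of_hasCompactSupport_nonneg_nonzero (μ := volume) (x := 0)
      (cs_of_supp (M := M) fun t ht => by simp [(hM t ht).1]) (fun t => sq_nonneg _) ?_
    simp [hη0]
  have hCp : 0 ≤ C := integral_nonneg fun t => by positivity
  set En : ℝ := ∑ i, w i * ((∫ t, Q t i i) + nu k (lab i) ^ 2 * ∫ t, R t i i) with hEn
  set E' : ℝ := ∑ i, (A1 + nu k (lab i) ^ 2 * A0) with hE'
  have hkey : ∀ e : ℝ, 0 < e → ((1 + e * C)⁻¹) ^ (2 / (k : ℝ)) * ∫ t, f t ≤ En + e * E' := by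
    intro e he
    have hD0 : 0 < 1 + e * C := by positivity
    set c : ℝ := (1 + e * C)⁻¹ with hc
    have hc0 : 0 < c := inv_pos.2 hD0
    set dd : Fin n → ℝ := fun i => e / w i with hdd
    have hdd0 : ∀ i, 0 ≤ dd i := fun i => by
      have := hw0 i
      simp only [hdd]; positivity
    have hs1 := sys_smul (sys_add hs (sys_eta hηd hη'c hM hdd0)) hc0.le
    set R' : ℝ → Mat n := fun t => c • (R t + (η t ^ 2) • Matrix.diagonal dd) with hR'
    set Q' : ℝ → Mat n := fun t => c • (Q t + (η' t ^ 2) • Matrix.diagonal dd) with hQ'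
    have hRij : ∀ t i j, R' t i j = c * (R t i j + η t ^ 2 * Matrix.diagonal dd i j) := by
      intro t i j
      simp only [hR', Matrix.smul_apply, Matrix.add_apply, smul_eq_mul]
    have hQij : ∀ t i j, Q' t i j = c * (Q t i j + η' t ^ 2 * Matrix.diagonal dd i j) := by
      intro t i j
      simp only [hQ', Matrix.smul_apply, Matrix.add_apply, smul_eq_mul]
    have hTot : ∀ i j, LTd.Tot R' i j = c * (LTd.Tot R i j + A0 * Matrix.diagonal dd i j) := by
      intro i j
      show ∫ t, R' t i j = c * ((∫ t, R t i j) + A0 * Matrix.diagonal dd i j)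
      simp only [hRij]
      rw [integral_const_mul, integral_add (sys_intR hs i j) (hi0.mul_const _),
        integral_mul_const]
    have hWM : ∀ i j, WM R' i j = c * (WM R i j + C * Matrix.diagonal dd i j) := by
      intro i j
      show ∫ t, Real.exp (2 * t) * R' t i j =
        c * ((∫ t, Real.exp (2 * t) * R t i j) + C * Matrix.diagonal dd i j)
      have e1 : ∀ t, Real.exp (2 * t) * R' t i j = c * (Real.exp (2 * t) * R t i j +
          (Real.exp (2 * t) * η t ^ 2) * Matrix.diagonal dd i j) := by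
        intro t; rw [hRij]; ring
      simp only [e1]
      rw [integral_const_mul, integral_add (sys_intE hs i j) (hiC.mul_const _),
        integral_mul_const]
    have hQt : ∀ i, ∫ t, Q' t i i = c * ((∫ t, Q t i i) + A1 * dd i) := by
      intro i
      simp only [hQij]
      rw [integral_const_mul, integral_add (sys_intQ hs i i) (hi1.mul_const _),
        integral_mul_const, Matrix.diagonal_apply_eq]
    have hRt : ∀ i, ∫ t, R' t i i = c * ((∫ t, R t i i) + A0 * dd i) := by
      intro i
      have := hTot i i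
      rw [Matrix.diagonal_apply_eq] at this
      exact this
    -- positivity
    have hPos : Pos (LTd.Tot R') := by
      refine ⟨fun i j => ?_, fun v hv => ?_⟩
      · show ∫ t, R' t i j = ∫ t, R' t j i
        refine integral_congr_ae (Eventually.of_forall fun t => ?_)
        exact hs1.symR t i j
      · rw [bf_comb (LTd.Tot R) A0 c dd v hTot]
        have h1 := bf_Tot_nonneg hs v
        obtain ⟨i, hi⟩ := Function.ne_iff.1 hv
        have h2 : 0 < ∑ i, v i ^ 2 * dd i := by
          refine Finset.sum_pos' (fun i _ => mul_nonneg (sq_nonneg _) (hdd0 i))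
            ⟨i, Finset.mem_univ _, ?_⟩
          have h3 : v i ≠ 0 := hi
          have := hw0 i
          simp only [hdd]; positivity
        positivity
    -- blocks
    have hblk' : BlockLe lab (WM R') := by
      intro l v hv
      rw [bf_comb (WM R) C c dd v hWM]
      have h1 := hblk l v hv
      have h2 : ∑ i, v i ^ 2 * dd i ≤ e * ∑ i, v i ^ 2 := by
        rw [Finset.mul_sum]
        refine Finset.sum_le_sum fun i _ => ?_
        have h3 : dd i ≤ e := by
          simp only [hdd]
          exact div_le_self he.le (hw1 i)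
        nlinarith [sq_nonneg (v i)]
      have h4 : bf (WM R) v v + C * ∑ i, v i ^ 2 * dd i ≤ (1 + e * C) * ∑ i, v i ^ 2 := by
        have := mul_le_mul_of_nonneg_left h2 hCp
        linarith
      calc c * (bf (WM R) v v + C * ∑ i, v i ^ 2 * dd i)
          ≤ c * ((1 + e * C) * ∑ i, v i ^ 2) := mul_le_mul_of_nonneg_left h4 hc0.le
        _ = ∑ i, v i ^ 2 := by
          rw [← mul_assoc, hc, inv_mul_cancel₀ hD0.ne', one_mul]
    -- the function below
    have hbel' : Below k n (fun i => (g (lab i) : ℝ)) R'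
        (fun t => c ^ (1 + 2 / (k : ℝ)) * f t) := by
      intro t V r hr hVr
      obtain ⟨v1, v2, v3⟩ := hVr
      have hB : (Matrix.of fun i j => √(w i) * √(w j) * R t i j : Mat n) =
          V * Matrix.diagonal (fun i => r i / c - e * η t ^ 2) * Vᵀ := by
        have h1 : Matrix.diagonal (fun i => r i / c - e * η t ^ 2) =
            c⁻¹ • Matrix.diagonal r - (e * η t ^ 2) • (1 : Mat n) := by
          ext i j
          by_cases hij : i = j
          · subst hij
            simp [div_eq_inv_mul]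
          · simp [hij]
        rw [h1, Matrix.mul_sub, Matrix.sub_mul, Matrix.mul_smul, Matrix.smul_mul, ← v3,
          Matrix.mul_smul, Matrix.smul_mul, Matrix.mul_one, v1]
        ext i j
        simp only [Matrix.of_apply, Matrix.sub_apply, Matrix.smul_apply, smul_eq_mul]
        rw [hRij]
        by_cases hij : i = j
        · subst hij
          rw [Matrix.diagonal_apply_eq, Matrix.one_apply_eq]
          have h5 : √(w i) * √(w i) = w i := Real.mul_self_sqrt (hw0 i).le
          rw [h5]
          simp only [hdd]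
          have := (hw0 i).ne'
          field_simp
          ring
        · rw [Matrix.diagonal_apply_ne _ hij, Matrix.one_apply_ne hij]
          show √(w i) * √(w j) * R t i j =
            c⁻¹ * (√(w i) * √(w j) * (c * (R t i j + η t ^ 2 * 0))) - e * η t ^ 2 * 0
          field_simp
          ring
      have hnn : ∀ i, 0 ≤ r i / c - e * η t ^ 2 := by
        intro i
        have hp := (LTd.sys_psd hs t).2 (fun j => √(w j) * V j i)
        have e1 : ∑ a, ∑ b, √(w a) * V a i * (√(w b) * V b i) * R t a b =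
            (Vᵀ * (Matrix.of fun i j => √(w i) * √(w j) * R t i j : Mat n) * V) i i := by
          rw [Matrix.mul_apply]
          simp only [Matrix.mul_apply, Matrix.transpose_apply, Matrix.of_apply, Finset.sum_mul]
          rw [Finset.sum_comm]
          refine Finset.sum_congr rfl fun a _ => Finset.sum_congr rfl fun b _ => ?_
          ring
        rw [e1, hB] at hp
        have e2 : Vᵀ * (V * Matrix.diagonal (fun i => r i / c - e * η t ^ 2) * Vᵀ) * V =
            Matrix.diagonal (fun i => r i / c - e * η t ^ 2) := by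
          calc Vᵀ * (V * Matrix.diagonal (fun i => r i / c - e * η t ^ 2) * Vᵀ) * V
              = (Vᵀ * V) * Matrix.diagonal (fun i => r i / c - e * η t ^ 2) * (Vᵀ * V) := by
                simp only [Matrix.mul_assoc]
            _ = _ := by rw [v2, Matrix.one_mul, Matrix.mul_one]
        rw [e2, Matrix.diagonal_apply_eq] at hp
        exact hp
      have h7 := hbel t V (fun i => r i / c - e * η t ^ 2) hnn ⟨v1, v2, hB⟩
      have hs0 : 0 < 1 + 2 / (k : ℝ) := by positivity
      have hKp : 0 ≤ Kp k := by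
        unfold Kp LL
        positivity
      have h8 : ∑ i, (r i / c - e * η t ^ 2) ^ (1 + 2 / (k : ℝ)) ≤
          c⁻¹ ^ (1 + 2 / (k : ℝ)) * ∑ i, r i ^ (1 + 2 / (k : ℝ)) := by
        rw [Finset.mul_sum]
        refine Finset.sum_le_sum fun i _ => ?_
        rw [← Real.mul_rpow (inv_pos.2 hc0).le (hr i)]
        refine Real.rpow_le_rpow (hnn i) ?_ hs0.le
        rw [← div_eq_inv_mul]
        have : 0 ≤ e * η t ^ 2 := by positivity
        linarith
      have h9 : c ^ (1 + 2 / (k : ℝ)) * c⁻¹ ^ (1 + 2 / (k : ℝ)) = 1 := by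
        rw [← Real.mul_rpow hc0.le (inv_pos.2 hc0).le, mul_inv_cancel₀ hc0.ne', Real.one_rpow]
      have hcp : 0 < c ^ (1 + 2 / (k : ℝ)) := Real.rpow_pos_of_pos hc0 _
      calc c ^ (1 + 2 / (k : ℝ)) * f t
          ≤ c ^ (1 + 2 / (k : ℝ)) * (Kp k * Real.exp (4 * t / k) *
            ∑ i, (r i / c - e * η t ^ 2) ^ (1 + 2 / (k : ℝ))) := by gcongr
        _ ≤ c ^ (1 + 2 / (k : ℝ)) * (Kp k * Real.exp (4 * t / k) *
            (c⁻¹ ^ (1 + 2 / (k : ℝ)) * ∑ i, r i ^ (1 + 2 / (k : ℝ)))) := by gcongr
        _ = (c ^ (1 + 2 / (k : ℝ)) * c⁻¹ ^ (1 + 2 / (k : ℝ))) * (Kp k * Real.exp (4 * t / k) *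
            ∑ i, r i ^ (1 + 2 / (k : ℝ))) := by ring
        _ = _ := by rw [h9, one_mul]
    have hmain : ∫ t, c ^ (1 + 2 / (k : ℝ)) * f t ≤ ∑ i, (g (lab i) : ℝ) *
        ((∫ t, Q' t i i) + nu k (lab i) ^ 2 * ∫ t, R' t i i) :=
      hP k hk n _ _ _ hs1 hPos lab g hg hblk'
        (fun t => c ^ (1 + 2 / (k : ℝ)) * f t) (hf.const_mul _) hbel'
    simp only [hRt, hQt] at hmain
    rw [integral_const_mul] at hmain
    have e5 : ∑ i, (g (lab i) : ℝ) * (c * ((∫ t, Q t i i) + A1 * dd i) +
        nu k (lab i) ^ 2 * (c * ((∫ t, R t i i) + A0 * dd i))) = c * (En + e * E') := by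
      rw [hEn, hE', Finset.mul_sum, ← Finset.sum_add_distrib, Finset.mul_sum]
      refine Finset.sum_congr rfl fun i _ => ?_
      have h6 : (g (lab i) : ℝ) = w i := rfl
      have h7 : w i * dd i = e := by
        simp only [hdd]
        have := (hw0 i).ne'
        field_simp
      rw [h6]
      calc w i * (c * ((∫ t, Q t i i) + A1 * dd i) +
            nu k (lab i) ^ 2 * (c * ((∫ t, R t i i) + A0 * dd i)))
          = c * (w i * ((∫ t, Q t i i) + nu k (lab i) ^ 2 * ∫ t, R t i i) +
            (w i * dd i) * (A1 + nu k (lab i) ^ 2 * A0)) := by ring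
        _ = _ := by rw [h7]
    rw [e5] at hmain
    have e6 : c ^ (1 + 2 / (k : ℝ)) = c * c ^ (2 / (k : ℝ)) := by
      rw [Real.rpow_add hc0, Real.rpow_one]
    rw [e6, mul_assoc] at hmain
    exact le_of_mul_le_mul_left hmain hc0
  -- the limit
  have hl1 : Tendsto (fun e : ℝ => ((1 + e * C)⁻¹) ^ (2 / (k : ℝ)) * ∫ t, f t) (𝓝[>] 0)
      (𝓝 (((1 + 0 * C)⁻¹) ^ (2 / (k : ℝ)) * ∫ t, f t)) := by
    refine Tendsto.mono_left ?_ nhdsWithin_le_nhds
    have h1 : ContinuousAt (fun e : ℝ => ((1 + e * C)⁻¹) ^ (2 / (k : ℝ)) * ∫ t, f t) 0 := by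
      refine ContinuousAt.mul (ContinuousAt.rpow_const ?_ (Or.inr (by positivity)))
        continuousAt_const
      refine ContinuousAt.inv₀ (by fun_prop) (by simp)
    exact h1
  have hl2 : Tendsto (fun e : ℝ => En + e * E') (𝓝[>] 0) (𝓝 (En + 0 * E')) := by
    refine Tendsto.mono_left ?_ nhdsWithin_le_nhds
    have h1 : Continuous (fun e : ℝ => En + e * E') := by fun_prop
    exact h1.tendsto 0
  have hfin := le_of_tendsto_of_tendsto hl1 hl2
    (eventually_nhdsWithin_of_forall fun e he => hkey e he)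
  rw [zero_mul, add_zero, inv_one, Real.one_rpow, one_mul, zero_mul, add_zero] at hfin
  exact hfin

end Pool.Agent.Run7.H136.LK
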