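import Pool.Agent.Run7.h136.LK.Mx
import Pool.Agent.N537.RS.Kin
import Pool.Agent.N537.RS.Cst2

set_option autoImplicit false

/-!
# Project LK, piece KINP: the kinetic inequality in the positive definite case
-/

open MeasureTheory Set Filter Topology
open scoped Matrix

namespace Pool.Agent.Run7.H136.LK

open Pool.Agent.Run7.H894.LK
open Pool.Agent.N537.RS (LL hdim)
open Pool.Agent.N537.RS.KI (WW ww_nonneg ww_id1 ww_id2)
open LTd (Mat)

theorem t_KINP (hD : S_DUALM) (hE : S_MEIG) (hNP : S_NPW) : S_KINP := by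
  intro k hk n R S Q hs hT lab g hg hblk f hf hbel
  have hk' : (6 : ℝ) ≤ k := by exact_mod_cast hk
  have hk0 : (0 : ℝ) < k := by linarith
  have hLL : 0 < LL k := (Pool.Agent.N537.RS.CS.t_CST k hk).1
  set β : ℝ := 2 / ((k - 1).factorial : ℝ) * LL k with hβdef
  have hβ : 0 < β := by positivity
  set s : ℝ := 1 + 2 / (k : ℝ) with hsdef
  have hs0 : 0 < s := by positivity
  -- weights
  set w : Fin n → ℝ := fun i => (g (lab i) : ℝ) with hw
  have hw1 : ∀ i, 1 ≤ w i := fun i => by
    simp only [hw]; exact_mod_cast (hg i).1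
  have hw0 : ∀ i, 0 < w i := fun i => lt_of_lt_of_le one_pos (hw1 i)
  have hsw : ∀ i, 0 < √(w i) := fun i => Real.sqrt_pos.2 (hw0 i)
  set B : ℝ → Mat n := fun t => Matrix.of fun i j => √(w i) * √(w j) * R t i j with hB
  have hBc : ∀ i j, Continuous fun t => B t i j := fun i j => by
    simp only [hB, Matrix.of_apply]
    exact continuous_const.mul (sys_cR hs i j)
  have hBp : ∀ t, LTd.PSD (B t) := by
    intro t
    have h1 := LTd.sys_psd hs t
    refine ⟨fun i j => ?_, fun v => ?_⟩
    · simp only [hB, Matrix.of_apply]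
      rw [h1.1 i j]; ring
    · have h2 := h1.2 (fun i => v i * √(w i))
      have e : ∑ i, ∑ j, v i * v j * B t i j =
          ∑ i, ∑ j, v i * √(w i) * (v j * √(w j)) * R t i j := by
        refine Finset.sum_congr rfl fun i _ => Finset.sum_congr rfl fun j _ => ?_
        simp only [hB, Matrix.of_apply]; ring
      rw [e]; exact h2
  obtain ⟨b, hbm, hb0, hbs⟩ := hE n B hBc hBp
  choose V hV using hbs
  -- trace
  set T : ℝ → ℝ := fun t => ∑ i, B t i i with hTdef
  have hTc : Continuous T := continuous_finsetSum _ fun i _ => hBc i i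
  have hbT : ∀ q t, b q t ≤ T t := fun q t => eig_le_tr (hV t) (fun q => hb0 q t) q
  obtain ⟨M, hM⟩ := hs.supp
  have hT0 : ∀ t, M < |t| → T t = 0 := by
    intro t ht
    simp [hTdef, hB, (hM t ht).1]
  -- the functions
  set H : ℝ → ℝ := fun t => Real.exp (4 * t / k) * T t ^ s with hH
  have hHint : Integrable H := by
    have hc : Continuous H := by
      refine Continuous.mul (by fun_prop) (hTc.rpow_const fun t => Or.inr hs0.le)
    refine hc.integrable_of_hasCompactSupport (cs_of_supp (M := M) fun x hx => ?_)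
    simp only [hH]
    rw [hT0 x hx, Real.zero_rpow hs0.ne', mul_zero]
  set Φ : Fin n → ℝ → ℝ := fun q t => Real.exp (4 * t / k) * b q t ^ s with hΦ
  have hΦ0 : ∀ q t, 0 ≤ Φ q t := fun q t => by
    have := hb0 q t
    simp only [hΦ]; positivity
  have hΦm : ∀ q, Measurable (Φ q) := fun q => by
    have := hbm q
    simp only [hΦ]
    exact Measurable.mul (by fun_prop) (this.pow_const s)
  have hΦH : ∀ q t, Φ q t ≤ H t := fun q t => by
    simp only [hΦ, hH]
    have := Real.rpow_le_rpow (hb0 q t) (hbT q t) hs0.le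
    gcongr
  have hΦint : ∀ q, Integrable (Φ q) := fun q => by
    refine hHint.mono' (hΦm q).aestronglyMeasurable (Eventually.of_forall fun t => ?_)
    rw [Real.norm_eq_abs, abs_of_nonneg (hΦ0 q t)]
    exact hΦH q t
  -- the potential
  set Vp : Fin n → ℝ → ℝ := fun j => WW k β (b j) with hVp
  have hVm : ∀ j, Measurable (Vp j) := fun j => by
    have := hbm j
    show Measurable fun t => (Real.exp (-((k : ℝ) - 2) * t) * b j t / β) ^ (2 / (k : ℝ))
    refine Measurable.pow_const ?_ _
    exact (Measurable.mul (by fun_prop) this).div_const β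
  have hV0 : ∀ j t, 0 ≤ Vp j t := fun j t => ww_nonneg hβ (hb0 j) t
  set d : Fin n → ℝ := fun i => (√(w i))⁻¹ with hd
  have hd0 : ∀ i, 0 ≤ d i := fun i => by simp only [hd]; exact inv_nonneg.2 (hsw i).le
  have hd1 : ∀ i, d i ≤ 1 := fun i => by
    simp only [hd]
    refine inv_le_one_of_one_le₀ ?_
    rw [Real.one_le_sqrt]; exact hw1 i
  set F : ℝ → Mat n := fun t =>
    Matrix.diagonal (fun j => √(b j t)) * (V t)ᵀ * Matrix.diagonal d with hF
  set N : ℝ → Mat n := fun t =>
    (F t)ᵀ * Matrix.diagonal (fun j => Real.exp (2 * t) * Vp j t) * F t with hNdef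
  have hR : ∀ t, R t = (F t)ᵀ * F t := by
    intro t
    have h1 := FtF (V t) (fun j => √(b j t)) (fun _ => 1) d
    rw [Matrix.diagonal_one, Matrix.mul_one] at h1
    have h2 : (fun j => √(b j t) * 1 * √(b j t)) = fun j => b j t := by
      funext j
      rw [mul_one, Real.mul_self_sqrt (hb0 j t)]
    rw [h2, ← (hV t).2.2] at h1
    simp only [hF]
    rw [h1]
    ext i j
    rw [dXd]
    simp only [hB, Matrix.of_apply, hd]
    have := (hsw i).ne'
    have := (hsw j).ne'
    field_simp
  have hNij : ∀ t i j, N t i j = d i * (β ^ (-(2 / (k : ℝ))) * (Real.exp (4 * t / k) *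
      (V t * Matrix.diagonal (fun q => b q t ^ s) * (V t)ᵀ) i j)) * d j := by
    intro t i j
    have h1 := FtF (V t) (fun j => √(b j t)) (fun j => Real.exp (2 * t) * Vp j t) d
    simp only [hNdef, hF]
    rw [h1, dXd]
    congr 2
    rw [VxV, VxV, Finset.mul_sum, Finset.mul_sum]
    refine Finset.sum_congr rfl fun q _ => ?_
    have h2 := ww_id1 hk hβ (hb0 q) t
    have h3 : √(b q t) * (Real.exp (2 * t) * Vp q t) * √(b q t) =
        β ^ (-(2 / (k : ℝ))) * (Real.exp (4 * t / k) * b q t ^ s) := by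
      rw [← h2]
      have h4 := Real.mul_self_sqrt (hb0 q t)
      calc √(b q t) * (Real.exp (2 * t) * Vp q t) * √(b q t)
          = Real.exp (2 * t) * Vp q t * (√(b q t) * √(b q t)) := by ring
        _ = _ := by rw [h4]
    rw [h3]; ring
  have hNm : ∀ i j, Measurable fun t => N t i j := by
    intro i j
    simp only [hNij]
    have := hNP n B V b s hs0 hBc hb0 hV i j
    refine Measurable.mul_const (Measurable.const_mul (Measurable.const_mul ?_ _) _) _
    exact Measurable.mul (by fun_prop) this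
  have hXb : ∀ t i j, |(V t * Matrix.diagonal (fun q => b q t ^ s) * (V t)ᵀ) i j| ≤
      ∑ q, b q t ^ s := fun t i j =>
    abs_VxV_le (hV t).1 (fun q => Real.rpow_nonneg (hb0 q t) s) i j
  have hNint : ∀ i j, Integrable fun t => N t i j := by
    intro i j
    have hmaj : Integrable fun t => β ^ (-(2 / (k : ℝ))) * ∑ q, Φ q t :=
      (integrable_finsetSum _ fun q _ => hΦint q).const_mul _
    refine hmaj.mono' (hNm i j).aestronglyMeasurable (Eventually.of_forall fun t => ?_)
    rw [Real.norm_eq_abs, hNij, abs_mul, abs_mul, abs_of_nonneg (hd0 i), abs_of_nonneg (hd0 j),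
      abs_mul, abs_mul, abs_of_pos (Real.rpow_pos_of_pos hβ _), Real.abs_exp]
    have e : ∑ q, Φ q t = Real.exp (4 * t / k) * ∑ q, b q t ^ s := by
      simp only [hΦ, Finset.mul_sum]
    rw [e]
    have hpos : 0 < β ^ (-(2 / (k : ℝ))) := Real.rpow_pos_of_pos hβ _
    have h5 := hXb t i j
    have h6 : β ^ (-(2 / (k : ℝ))) * (Real.exp (4 * t / k) *
        |(V t * Matrix.diagonal (fun q => b q t ^ s) * (V t)ᵀ) i j|) ≤
        β ^ (-(2 / (k : ℝ))) * (Real.exp (4 * t / k) * ∑ q, b q t ^ s) := by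
      gcongr
    have h7 : 0 ≤ β ^ (-(2 / (k : ℝ))) * (Real.exp (4 * t / k) *
        |(V t * Matrix.diagonal (fun q => b q t ^ s) * (V t)ᵀ) i j|) := by positivity
    calc d i * (β ^ (-(2 / (k : ℝ))) * (Real.exp (4 * t / k) *
          |(V t * Matrix.diagonal (fun q => b q t ^ s) * (V t)ᵀ) i j|)) * d j
        ≤ 1 * (β ^ (-(2 / (k : ℝ))) * (Real.exp (4 * t / k) *
          |(V t * Matrix.diagonal (fun q => b q t ^ s) * (V t)ᵀ) i j|)) * 1 := by
          refine mul_le_mul (mul_le_mul_of_nonneg_right (hd1 i) h7) (hd1 j) (hd0 j) ?_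
          linarith
      _ ≤ _ := by rw [one_mul, mul_one]; exact h6
  -- the dual inequality
  have hmain := hD k hk n R S Q hs hT lab g (fun i => (hg i).2) hblk F N Vp hVm hV0 hR
    (fun t => rfl) hNint
  set I : ℝ := ∑ q, ∫ t, Φ q t with hI
  have hI0 : 0 ≤ I := Finset.sum_nonneg fun q _ => integral_nonneg (hΦ0 q)
  have hpos : 0 < β ^ (-(2 / (k : ℝ))) := Real.rpow_pos_of_pos hβ _
  -- the left hand side
  have hsum : ∑ i, w i * (∫ t, N t i i) = β ^ (-(2 / (k : ℝ))) * I := by
    have h1 : ∑ i, w i * (∫ t, N t i i) = ∫ t, ∑ i, w i * N t i i := by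
      rw [integral_finsetSum _ fun i _ => (hNint i i).const_mul _]
      refine Finset.sum_congr rfl fun i _ => ?_
      rw [integral_const_mul]
    have h2 : ∀ t, ∑ i, w i * N t i i = β ^ (-(2 / (k : ℝ))) * ∑ q, Φ q t := by
      intro t
      have h3 : ∀ i, w i * N t i i = β ^ (-(2 / (k : ℝ))) * (Real.exp (4 * t / k) *
          (V t * Matrix.diagonal (fun q => b q t ^ s) * (V t)ᵀ) i i) := by
        intro i
        rw [hNij]
        have h4 : d i * d i * w i = 1 := by
          simp only [hd]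
          rw [← mul_inv, Real.mul_self_sqrt (hw0 i).le, inv_mul_cancel₀ (hw0 i).ne']
        calc w i * (d i * (β ^ (-(2 / (k : ℝ))) * (Real.exp (4 * t / k) *
              (V t * Matrix.diagonal (fun q => b q t ^ s) * (V t)ᵀ) i i)) * d i)
            = (d i * d i * w i) * (β ^ (-(2 / (k : ℝ))) * (Real.exp (4 * t / k) *
              (V t * Matrix.diagonal (fun q => b q t ^ s) * (V t)ᵀ) i i)) := by ring
          _ = _ := by rw [h4, one_mul]
      simp only [h3]
      rw [← Finset.mul_sum, ← Finset.mul_sum, tr_VxV (hV t).2.1, Finset.mul_sum]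
    rw [h1]
    simp only [h2]
    rw [integral_const_mul, integral_finsetSum _ fun q _ => hΦint q]
  set En : ℝ := ∑ i, w i * ((∫ t, Q t i i) + nu k (lab i) ^ 2 * ∫ t, R t i i) with hEn
  have hlhs : ∑ i, w i * ((∫ t, N t i i) - (∫ t, Q t i i) - nu k (lab i) ^ 2 * ∫ t, R t i i) =
      β ^ (-(2 / (k : ℝ))) * I - En := by
    rw [← hsum, hEn, ← Finset.sum_sub_distrib]
    refine Finset.sum_congr rfl fun i _ => ?_
    ring
  -- the right hand side
  have hlint : ∀ j, ∫⁻ t, ENNReal.ofReal (Real.exp (k * t) * Vp j t ^ (1 + (k : ℝ) / 2)) =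
      ENNReal.ofReal (β⁻¹ * (β ^ (-(2 / (k : ℝ))) * ∫ t, Φ j t)) := by
    intro j
    have e1 : ∀ t, Real.exp (k * t) * Vp j t ^ (1 + (k : ℝ) / 2) =
        β⁻¹ * (β ^ (-(2 / (k : ℝ))) * Φ j t) := by
      intro t
      show Real.exp (k * t) * WW k β (b j) t ^ (1 + (k : ℝ) / 2) = _
      rw [ww_id2 hk hβ (hb0 j) t, ww_id1 hk hβ (hb0 j) t]
    simp only [e1]
    rw [← ofReal_integral_eq_lintegral_ofReal]
    · rw [integral_const_mul, integral_const_mul]
    · exact ((hΦint j).const_mul _).const_mul _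
    · refine Eventually.of_forall fun t => ?_
      have := hΦ0 j t
      show 0 ≤ β⁻¹ * (β ^ (-(2 / (k : ℝ))) * Φ j t)
      positivity
  have hrhs : ∑ j, ∫⁻ t, ENNReal.ofReal (Real.exp (k * t) * Vp j t ^ (1 + (k : ℝ) / 2)) =
      ENNReal.ofReal (β⁻¹ * (β ^ (-(2 / (k : ℝ))) * I)) := by
    simp only [hlint]
    rw [← ENNReal.ofReal_sum_of_nonneg]
    · rw [← Finset.mul_sum, ← Finset.mul_sum]
    · intro j _
      have : 0 ≤ ∫ t, Φ j t := integral_nonneg (hΦ0 j)
      positivity
  have hmain' : ENNReal.ofReal (β ^ (-(2 / (k : ℝ))) * I - En) ≤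
      ENNReal.ofReal (β * (2 / ((k : ℝ) + 2)) * (β⁻¹ * (β ^ (-(2 / (k : ℝ))) * I))) := by
    rw [← hlhs, ENNReal.ofReal_mul (by positivity), ← hrhs]
    exact hmain
  have hle := (ENNReal.ofReal_le_ofReal_iff (by positivity)).1 hmain'
  have e3 : β * (2 / ((k : ℝ) + 2)) * (β⁻¹ * (β ^ (-(2 / (k : ℝ))) * I)) =
      2 / ((k : ℝ) + 2) * (β ^ (-(2 / (k : ℝ))) * I) := by
    field_simp
  rw [e3] at hle
  have e4 : Kp k * I =
      β ^ (-(2 / (k : ℝ))) * I - 2 / ((k : ℝ) + 2) * (β ^ (-(2 / (k : ℝ))) * I) := by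
    unfold Kp
    rw [← hβdef]
    field_simp
    ring
  have hKI : Kp k * I ≤ En := by rw [e4]; linarith
  -- the function below
  have hfle : ∫ t, f t ≤ Kp k * I := by
    have h1 : ∀ t, f t ≤ Kp k * ∑ q, Φ q t := by
      intro t
      have h2 := hbel t (V t) (fun j => b j t) (fun j => hb0 j t) (hV t)
      refine h2.trans (le_of_eq ?_)
      simp only [hΦ]
      rw [mul_assoc, ← Finset.mul_sum]
    have h3 : Kp k * I = ∫ t, Kp k * ∑ q, Φ q t := by
      rw [integral_const_mul, integral_finsetSum _ fun q _ => hΦint q]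
    rw [h3]
    exact integral_mono hf ((integrable_finsetSum _ fun q _ => hΦint q).const_mul _) h1
  exact hfle.trans hKI

end Pool.Agent.Run7.H136.LK
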