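import Pool.Agent.Run7.h136.LK.Mx
import Pool.Agent.N537.RS.Tau
import Pool.Agent.Helper717.LT.P_congr_sys
import Pool.Agent.Helper717.LT.P_congr_tot

set_option autoImplicit false

/-!
# Project LK, piece DUALM: the dual inequality
-/

open MeasureTheory Set Filter Topology
open scoped Matrix

namespace Pool.Agent.Run7.H136.LK

open Pool.Agent.Run7.H894.LK
open Pool.Agent.N537.RS (LL hdim)
open LTd (Mat)

theorem sys_symQ {n : ℕ} {R S Q : ℝ → Mat n} (h : LTd.Sys R S Q) :
    LTd.Sys R S (fun t => (1 / 2 : ℝ) • (Q t + (Q t)ᵀ)) := by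
  refine ⟨h.symR, h.der, h.cS, ?_, ?_, ?_⟩
  · intro i j
    simp only [Matrix.smul_apply, Matrix.add_apply, Matrix.transpose_apply, smul_eq_mul]
    exact continuous_const.mul ((h.cQ i j).add (h.cQ j i))
  · obtain ⟨M, hM⟩ := h.supp
    exact ⟨M, fun x hx => ⟨(hM x hx).1, (hM x hx).2.1, by simp [(hM x hx).2.2]⟩⟩
  · intro x X Y
    have e : (X * ((1 / 2 : ℝ) • (Q x + (Q x)ᵀ)) * Xᵀ).trace = (X * Q x * Xᵀ).trace := by
      have e1 : (X * (Q x)ᵀ * Xᵀ).trace = (X * Q x * Xᵀ).trace := by
        rw [← Matrix.trace_transpose, Matrix.transpose_mul, Matrix.transpose_mul,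
          Matrix.transpose_transpose, Matrix.transpose_transpose, Matrix.mul_assoc]
      rw [Matrix.mul_smul, Matrix.smul_mul, Matrix.trace_smul, Matrix.mul_add, Matrix.add_mul,
        Matrix.trace_add, e1, smul_eq_mul]
      ring
    rw [e]
    exact h.key x X Y

theorem conj_inv {n : ℕ} {L L' : Mat n} (h : L * L' = 1) (X : Mat n) :
    L * (L' * X * L'ᵀ) * Lᵀ = X := by
  have h2 : L'ᵀ * Lᵀ = 1 := by rw [← Matrix.transpose_mul, h, Matrix.transpose_one]
  calc L * (L' * X * L'ᵀ) * Lᵀ = (L * L') * X * (L'ᵀ * Lᵀ) := by simp only [Matrix.mul_assoc]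
    _ = X := by rw [h, h2, Matrix.one_mul, Matrix.mul_one]

theorem int_conj {n : ℕ} (D : Mat n) {X : ℝ → Mat n} (hX : ∀ i j, Integrable fun t => X t i j)
    (i j : Fin n) : (Integrable fun t => (D * X t * Dᵀ) i j) ∧
      ∫ t, (D * X t * Dᵀ) i j = (D * (Matrix.of fun a b => ∫ t, X t a b) * Dᵀ) i j := by
  have h1 : ∀ b, Integrable fun t => (∑ a, D i a * X t a b) * D j b := fun b =>
    (integrable_finsetSum _ fun a _ => (hX a b).const_mul _).mul_const _
  have e : ∀ Y : Mat n, (D * Y * Dᵀ) i j = ∑ b, (∑ a, D i a * Y a b) * D j b := by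
    intro Y
    simp only [Matrix.mul_apply, Matrix.transpose_apply]
  constructor
  · simp only [e]
    exact integrable_finsetSum _ fun b _ => h1 b
  · simp only [e]
    rw [integral_finsetSum _ fun b _ => h1 b]
    refine Finset.sum_congr rfl fun b _ => ?_
    rw [integral_mul_const, integral_finsetSum _ fun a _ => (hX a b).const_mul _]
    congr 1
    refine Finset.sum_congr rfl fun a _ => ?_
    rw [integral_const_mul]
    rfl

theorem bf_row {n : ℕ} (M L : Mat n) (i j : Fin n) :
    bf M (fun a => L i a) (fun b => L j b) = (L * M * Lᵀ) i j := by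
  unfold bf
  simp only [Matrix.mul_apply, Matrix.transpose_apply, Finset.sum_mul]
  rw [Finset.sum_comm]
  refine Finset.sum_congr rfl fun b _ => Finset.sum_congr rfl fun a _ => ?_
  ring

/-- the indices with label `l` -/
noncomputable def sgm {n : ℕ} (lab : Fin n → ℕ) (l : ℕ) :
    Fin (Fintype.card {i // lab i = l}) ≃ {i // lab i = l} :=
  (Fintype.equivFin _).symm

theorem sum_fib {n : ℕ} (lab : Fin n → ℕ) (l : ℕ) (G : Fin n → ℝ) (hG : ∀ i, lab i ≠ l → G i = 0) :
    ∑ i, G i = ∑ a, G (sgm lab l a) := by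
  rw [Equiv.sum_comp (sgm lab l) (fun x : {i // lab i = l} => G x)]
  rw [← Finset.sum_subtype (Finset.univ.filter fun i => lab i = l) (fun i => by simp) G]
  rw [Finset.sum_filter]
  refine Finset.sum_congr rfl fun i _ => ?_
  split_ifs with h
  · rfl
  · exact hG i h

theorem sum_fib' {n : ℕ} (lab : Fin n → ℕ) (g : ℕ → ℕ) (X : Fin n → ℝ) :
    ∑ i, (g (lab i) : ℝ) * X i =
      ∑ l ∈ Finset.univ.image lab, (g l : ℝ) * ∑ a, X (sgm lab l a) := by
  rw [← Finset.sum_fiberwise_of_maps_to (s := Finset.univ) (t := Finset.univ.image lab) (g := lab)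
    (fun i _ => Finset.mem_image_of_mem _ (Finset.mem_univ _))]
  refine Finset.sum_congr rfl fun l _ => ?_
  rw [Equiv.sum_comp (sgm lab l) (fun x : {i // lab i = l} => X x),
    ← Finset.sum_subtype (Finset.univ.filter fun i => lab i = l) (fun i => by simp) X,
    Finset.mul_sum]
  refine Finset.sum_congr rfl fun i hi => ?_
  rw [(Finset.mem_filter.1 hi).2]

theorem t_DUALM (hLTV : S_LTV) (hLAR : S_LAR) (hCHO : S_CHO) : S_DUALM := by
  intro k hk n R S Q₀ hs₀ hT lab g hg hblk F N V hVm hV0 hRF hNF hNint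
  have hk' : (6 : ℝ) ≤ k := by exact_mod_cast hk
  have hk0 : (0 : ℝ) < k := by linarith
  -- symmetric `Q`
  obtain ⟨Q, hQdef⟩ : ∃ Q : ℝ → Mat n, Q = fun t => (1 / 2 : ℝ) • (Q₀ t + (Q₀ t)ᵀ) := ⟨_, rfl⟩
  have hs : LTd.Sys R S Q := by rw [hQdef]; exact sys_symQ hs₀
  have hQsym : ∀ t i j, Q t i j = Q t j i := by
    intro t i j
    simp only [hQdef, Matrix.smul_apply, Matrix.add_apply, Matrix.transpose_apply]
    rw [add_comm]
  have hQii : ∀ i, ∫ t, Q t i i = ∫ t, Q₀ t i i := by
    intro i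
    refine integral_congr_ae (Eventually.of_forall fun t => ?_)
    simp only [hQdef, Matrix.smul_apply, Matrix.add_apply, Matrix.transpose_apply, smul_eq_mul]
    ring
  simp only [← hQii]
  -- the factor
  obtain ⟨L, L', hLL', hL'L, hTL⟩ := hCHO n (LTd.Tot R) hT
  obtain ⟨R1, hR1⟩ : ∃ R1 : ℝ → Mat n, R1 = fun t => L' * R t * L'ᵀ := ⟨_, rfl⟩
  obtain ⟨S1, hS1⟩ : ∃ S1 : ℝ → Mat n, S1 = fun t => L' * S t * L'ᵀ := ⟨_, rfl⟩
  obtain ⟨Q1, hQ1⟩ : ∃ Q1 : ℝ → Mat n, Q1 = fun t => L' * Q t * L'ᵀ := ⟨_, rfl⟩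
  obtain ⟨N1, hN1⟩ : ∃ N1 : ℝ → Mat n, N1 = fun t => L' * N t * L'ᵀ := ⟨_, rfl⟩
  obtain ⟨F1, hF1⟩ : ∃ F1 : ℝ → Mat n, F1 = fun t => F t * L'ᵀ := ⟨_, rfl⟩
  have hs1 : LTd.Sys R1 S1 Q1 := by
    rw [hR1, hS1, hQ1]; exact LTd.congr_sys hs L'
  have hTot1 : LTd.Tot R1 = 1 := by
    rw [hR1, LTd.congr_tot hs L', hTL]
    have h2 : Lᵀ * L'ᵀ = 1 := by rw [← Matrix.transpose_mul, hL'L, Matrix.transpose_one]
    calc L' * (L * Lᵀ) * L'ᵀ = (L' * L) * (Lᵀ * L'ᵀ) := by simp only [Matrix.mul_assoc]
      _ = 1 := by rw [hL'L, h2, Matrix.one_mul]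
  have hR1F : ∀ t, R1 t = (F1 t)ᵀ * F1 t := by
    intro t
    simp only [hR1, hF1]
    rw [hRF t, Matrix.transpose_mul, Matrix.transpose_transpose]
    simp only [Matrix.mul_assoc]
  have hN1F : ∀ t, N1 t = (F1 t)ᵀ * Matrix.diagonal (fun j => Real.exp (2 * t) * V j t) * F1 t := by
    intro t
    simp only [hN1, hF1]
    rw [hNF t, Matrix.transpose_mul, Matrix.transpose_transpose]
    simp only [Matrix.mul_assoc]
  have hN1int : ∀ i j, Integrable fun t => N1 t i j := by
    intro i j
    rw [hN1]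
    exact (int_conj L' hNint i j).1
  have hN1sym : ∀ t i j, N1 t i j = N1 t j i := by
    intro t i j
    have h1 : (N1 t)ᵀ = N1 t := by
      rw [hN1F t, Matrix.transpose_mul, Matrix.transpose_mul, Matrix.transpose_transpose,
        Matrix.diagonal_transpose, Matrix.mul_assoc]
    calc N1 t i j = (N1 t)ᵀ j i := rfl
      _ = _ := by rw [h1]
  have hQ1sym : ∀ t i j, Q1 t i j = Q1 t j i := by
    intro t i j
    have h0 : (Q t)ᵀ = Q t := by
      ext a b; rw [Matrix.transpose_apply]; exact hQsym t b a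
    have h1 : (Q1 t)ᵀ = Q1 t := by
      rw [hQ1]
      show (L' * Q t * L'ᵀ)ᵀ = L' * Q t * L'ᵀ
      rw [Matrix.transpose_mul, Matrix.transpose_mul, Matrix.transpose_transpose, h0,
        Matrix.mul_assoc]
    calc Q1 t i j = (Q1 t)ᵀ j i := rfl
      _ = _ := by rw [h1]
  -- the matrices
  obtain ⟨A, hA⟩ : ∃ A : Mat n, A = Matrix.of fun i j => (∫ t, Q1 t i j) - ∫ t, N1 t i j :=
    ⟨_, rfl⟩
  obtain ⟨M, hM⟩ : ∃ M : Mat n, M = WM R1 := ⟨_, rfl⟩
  have hAsym : ∀ i j, A i j = A j i := by
    intro i j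
    rw [hA]
    simp only [Matrix.of_apply]
    congr 1
    · exact integral_congr_ae (Eventually.of_forall fun t => hQ1sym t i j)
    · exact integral_congr_ae (Eventually.of_forall fun t => hN1sym t i j)
  have hMR : M = L' * WM R * L'ᵀ := by
    ext i j
    rw [hM]
    show ∫ t, Real.exp (2 * t) * R1 t i j = _
    have h1 := (int_conj L' (X := fun t => Real.exp (2 * t) • R t)
      (fun i j => by
        simp only [Matrix.smul_apply, smul_eq_mul]
        exact sys_intE hs i j) i j).2
    have h2 : ∀ t, Real.exp (2 * t) * R1 t i j = (L' * (Real.exp (2 * t) • R t) * L'ᵀ) i j := by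
      intro t
      rw [Matrix.mul_smul, Matrix.smul_mul, Matrix.smul_apply, smul_eq_mul, hR1]
    simp only [h2]
    rw [h1]
    rfl
  have hMpos : Pos M := by
    refine ⟨fun i j => ?_, fun v hv => ?_⟩
    · rw [hM]
      show ∫ t, Real.exp (2 * t) * R1 t i j = ∫ t, Real.exp (2 * t) * R1 t j i
      refine integral_congr_ae (Eventually.of_forall fun t => ?_)
      show Real.exp (2 * t) * R1 t i j = Real.exp (2 * t) * R1 t j i
      rw [hs1.symR]
    · obtain ⟨q, hq⟩ : ∃ q : ℝ → ℝ, q = fun t => ∑ i, ∑ j, v i * v j * R1 t i j := ⟨_, rfl⟩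
      have hqc : Continuous q := by
        rw [hq]
        exact continuous_finsetSum _ fun i _ => continuous_finsetSum _ fun j _ =>
          continuous_const.mul (sys_cR hs1 i j)
      have hq0 : ∀ t, 0 ≤ q t := fun t => by rw [hq]; exact (LTd.sys_psd hs1 t).2 v
      obtain ⟨T, hTs⟩ := hs1.supp
      have hqs : ∀ t, T < |t| → q t = 0 := by
        intro t ht
        rw [hq]
        simp [(hTs t ht).1]
      have e1 : bf M v v = ∫ t, Real.exp (2 * t) * q t := by
        have e2 : ∀ t, Real.exp (2 * t) * q t =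
            ∑ i, ∑ j, v i * v j * (Real.exp (2 * t) * R1 t i j) := by
          intro t
          rw [hq]
          simp only [Finset.mul_sum]
          refine Finset.sum_congr rfl fun i _ => Finset.sum_congr rfl fun j _ => ?_
          ring
        simp only [e2]
        rw [integral_finsetSum _ fun i _ => integrable_finsetSum _ fun j _ =>
          (sys_intE hs1 i j).const_mul _]
        unfold bf
        refine Finset.sum_congr rfl fun i _ => ?_
        rw [integral_finsetSum _ fun j _ => (sys_intE hs1 i j).const_mul _]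
        refine Finset.sum_congr rfl fun j _ => ?_
        rw [integral_const_mul, hM]
        rfl
      have e3 : ∑ i, v i ^ 2 = ∫ t, q t := by
        have h1 : ∫ t, q t = ∑ i, ∑ j, v i * v j * LTd.Tot R1 i j := by
          rw [hq, integral_finsetSum _ fun i _ => integrable_finsetSum _ fun j _ =>
            (sys_intR hs1 i j).const_mul _]
          refine Finset.sum_congr rfl fun i _ => ?_
          rw [integral_finsetSum _ fun j _ => (sys_intR hs1 i j).const_mul _]
          refine Finset.sum_congr rfl fun j _ => ?_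
          rw [integral_const_mul]
          rfl
        rw [h1, hTot1]
        refine Finset.sum_congr rfl fun i _ => ?_
        rw [Finset.sum_eq_single i]
        · rw [Matrix.one_apply_eq]; ring
        · intro j _ hj
          rw [Matrix.one_apply_ne (Ne.symm hj)]; ring
        · intro hi; exact absurd (Finset.mem_univ _) hi
      rw [e1]
      obtain ⟨x, hx⟩ : ∃ x, q x ≠ 0 := by
        by_contra hcon
        push Not at hcon
        have h1 : ∫ t, q t = 0 := by simp [hcon]
        rw [h1] at e3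
        apply hv
        funext i
        have h2 := (Finset.sum_eq_zero_iff_of_nonneg (fun i _ => sq_nonneg (v i))).1 e3 i
          (Finset.mem_univ _)
        exact pow_eq_zero_iff (two_ne_zero) |>.1 h2
      have hc : Continuous fun t => Real.exp (2 * t) * q t := by fun_prop
      refine hc.integral_pos_of_hasCompactSupport_nonneg_nonzero (x := x)
        (cs_of_supp (M := T) fun t ht => by rw [hqs t ht, mul_zero])
        (fun t => mul_nonneg (Real.exp_pos _).le (hq0 t)) ?_
      exact mul_ne_zero (Real.exp_pos _).ne' hx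
  -- the bound of the eigenvalues
  obtain ⟨Ψ, hΨ⟩ : ∃ Ψ : ℝ → ENNReal, Ψ = fun τ => ENNReal.ofReal (LL k) *
      ∑ j, ∫⁻ t, ENNReal.ofReal ((max (Real.exp (2 * t) * (V j t - τ)) 0) ^ ((k : ℝ) / 2)) :=
    ⟨_, rfl⟩
  have hbound : ∀ τ : ℝ, 0 < τ → ∀ (U : Mat n) (e : Fin n → ℝ), Spec (A + τ • M) U e →
      ∑ i, ENNReal.ofReal ((max (-e i) 0) ^ (((k : ℝ) - 1) / 2)) ≤ Ψ τ := by
    intro τ _ U e hUe
    rw [hΨ]
    have hNτ : ∀ t i j, (N1 t - (τ * Real.exp (2 * t)) • R1 t) i j =
        N1 t i j - τ * (Real.exp (2 * t) * R1 t i j) := by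
      intro t i j
      rw [Matrix.sub_apply, Matrix.smul_apply, smul_eq_mul]; ring
    refine hLTV k hk n R1 S1 Q1 hs1 hTot1 F1 (fun t => N1 t - (τ * Real.exp (2 * t)) • R1 t)
      (fun j t => Real.exp (2 * t) * (V j t - τ)) hR1F ?_ ?_ ?_ U e ?_
    · intro t
      have h1 : Matrix.diagonal (fun j => Real.exp (2 * t) * (V j t - τ)) =
          Matrix.diagonal (fun j => Real.exp (2 * t) * V j t) -
            (τ * Real.exp (2 * t)) • (1 : Mat n) := by
        ext i j
        by_cases hij : i = j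
        · subst hij
          simp; ring
        · simp [hij]
      rw [h1, Matrix.mul_sub, Matrix.sub_mul, ← hN1F, Matrix.mul_smul, Matrix.smul_mul,
        Matrix.mul_one, ← hR1F]
    · intro i j
      simp only [hNτ]
      exact (hN1int i j).sub ((sys_intE hs1 i j).const_mul _)
    · intro j
      exact Measurable.mul (by fun_prop) ((hVm j).sub_const τ)
    · have h1 : (Matrix.of fun i j => (∫ t, Q1 t i j) -
          ∫ t, (N1 t - (τ * Real.exp (2 * t)) • R1 t) i j : Mat n) = A + τ • M := by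
        ext i j
        simp only [hNτ, Matrix.of_apply, Matrix.add_apply, Matrix.smul_apply, smul_eq_mul]
        rw [integral_sub (hN1int i j) ((sys_intE hs1 i j).const_mul _), integral_const_mul, hA, hM]
        show _ = (∫ t, Q1 t i j) - (∫ t, N1 t i j) + τ * ∫ t, Real.exp (2 * t) * R1 t i j
        ring
      rw [h1]
      exact hUe
  -- the families
  have hrowM : ∀ i j, bf M (fun a => L i a) (fun b => L j b) = WM R i j := by
    intro i j
    rw [bf_row, hMR, conj_inv hLL']
  have hA' : A = L' * (Matrix.of fun i j => (∫ t, Q t i j) - ∫ t, N t i j) * L'ᵀ := by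
    have h1 : A = (Matrix.of fun i j => ∫ t, Q1 t i j) - (Matrix.of fun i j => ∫ t, N1 t i j) := by
      rw [hA]; rfl
    have h2 : (Matrix.of fun i j => ∫ t, Q1 t i j : Mat n) =
        L' * (Matrix.of fun i j => ∫ t, Q t i j) * L'ᵀ := by
      ext i j
      rw [hQ1]
      exact (int_conj L' (sys_intQ hs) i j).2
    have h3 : (Matrix.of fun i j => ∫ t, N1 t i j : Mat n) =
        L' * (Matrix.of fun i j => ∫ t, N t i j) * L'ᵀ := by
      ext i j
      rw [hN1]
      exact (int_conj L' hNint i j).2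
    have h4 : (Matrix.of fun i j => (∫ t, Q t i j) - ∫ t, N t i j : Mat n) =
        (Matrix.of fun i j => ∫ t, Q t i j) - (Matrix.of fun i j => ∫ t, N t i j) := rfl
    rw [h1, h2, h3, h4, Matrix.mul_sub, Matrix.sub_mul]
  have hrowA : ∀ i, bf A (fun a => L i a) (fun b => L i b) = (∫ t, Q t i i) - ∫ t, N t i i := by
    intro i
    rw [bf_row, hA', conj_inv hLL']
    rfl
  have hrow1 : ∀ i, ∑ a, L i a ^ 2 = ∫ t, R t i i := by
    intro i
    have h1 : (L * Lᵀ) i i = ∫ t, R t i i := by
      rw [← hTL]; rfl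
    rw [← h1, Matrix.mul_apply]
    refine Finset.sum_congr rfl fun a _ => ?_
    rw [Matrix.transpose_apply, sq]
  have hfin := hLAR k hk n A M hAsym hMpos (Finset.univ.image lab) g
    (fun l => Fintype.card {i // lab i = l})
    (fun l hl => by
      obtain ⟨i, -, rfl⟩ := Finset.mem_image.1 hl
      exact hg i)
    (fun l a => fun b => L (sgm lab l a) b)
    (fun l _ c => by
      simp only [hrowM]
      obtain ⟨c', hc'⟩ : ∃ c' : Fin n → ℝ, c' = fun i =>
        if h : lab i = l then c ((sgm lab l).symm ⟨i, h⟩) else 0 := ⟨_, rfl⟩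
      have h0 : ∀ i, lab i ≠ l → c' i = 0 := by
        intro i hi
        rw [hc']
        simp [hi]
      have h1 : ∀ a, c' (sgm lab l a) = c a := by
        intro a
        rw [hc']
        simp only [(sgm lab l a).2, dif_pos]
        simp
      have h2 := hblk l c' h0
      have h3 : bf (WM R) c' c' =
          ∑ a, ∑ b, c a * c b * WM R (sgm lab l a) (sgm lab l b) := by
        unfold bf
        rw [sum_fib lab l _ (fun i hi => by simp [h0 i hi])]
        refine Finset.sum_congr rfl fun a _ => ?_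
        rw [sum_fib lab l _ (fun j hj => by simp [h0 j hj])]
        refine Finset.sum_congr rfl fun b _ => ?_
        rw [h1, h1]
      have h4 : ∑ i, c' i ^ 2 = ∑ a, c a ^ 2 := by
        rw [sum_fib lab l _ (fun i hi => by simp [h0 i hi])]
        refine Finset.sum_congr rfl fun a _ => ?_
        rw [h1]
      rw [← h3, ← h4]
      exact h2) Ψ hbound
  -- the left hand side
  have hlhs : ∑ i, (g (lab i) : ℝ) *
      ((∫ t, N t i i) - (∫ t, Q t i i) - nu k (lab i) ^ 2 * ∫ t, R t i i) =
      ∑ l ∈ Finset.univ.image lab, (g l : ℝ) *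
        (-(∑ a, bf A (fun b => L (sgm lab l a) b) (fun b => L (sgm lab l a) b)) -
          nu k l ^ 2 * ∑ a, ∑ b, L (sgm lab l a) b ^ 2) := by
    rw [sum_fib' lab g (fun i => (∫ t, N t i i) - (∫ t, Q t i i) -
      nu k (lab i) ^ 2 * ∫ t, R t i i)]
    refine Finset.sum_congr rfl fun l _ => ?_
    congr 1
    rw [← Finset.sum_neg_distrib, Finset.mul_sum, ← Finset.sum_sub_distrib]
    refine Finset.sum_congr rfl fun a _ => ?_
    rw [hrowA, hrow1, (sgm lab l a).2]
    ring
  rw [hlhs]
  refine hfin.trans (le_of_eq ?_)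
  -- the right hand side
  have hLLk : 0 ≤ LL k := by
    unfold LL
    positivity
  rw [hΨ]
  have hmeas : ∀ j, Measurable fun τ : ℝ => ∫⁻ t, ENNReal.ofReal
      ((max (Real.exp (2 * t) * (V j t - τ)) 0) ^ ((k : ℝ) / 2)) := by
    intro j
    have h1 : Measurable fun p : ℝ × ℝ => ENNReal.ofReal
        ((max (Real.exp (2 * p.2) * (V j p.2 - p.1)) 0) ^ ((k : ℝ) / 2)) := by
      refine ENNReal.measurable_ofReal.comp ?_
      refine Measurable.pow_const (Measurable.max ?_ measurable_const) _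
      refine Measurable.mul (by fun_prop) ?_
      exact ((hVm j).comp measurable_snd).sub measurable_fst
    exact h1.lintegral_prod_right'
  rw [lintegral_const_mul' _ _ ENNReal.ofReal_ne_top, lintegral_finsetSum _ fun j _ => hmeas j]
  have htau : ∀ j, ∫⁻ τ in Ioi (0 : ℝ), ∫⁻ t, ENNReal.ofReal
      ((max (Real.exp (2 * t) * (V j t - τ)) 0) ^ ((k : ℝ) / 2)) =
      ENNReal.ofReal (2 / ((k : ℝ) + 2)) *
        ∫⁻ t, ENNReal.ofReal (Real.exp (k * t) * V j t ^ (1 + (k : ℝ) / 2)) := fun j =>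
    Pool.Agent.N537.RS.TA.t_TAU k hk (V j) (hVm j) (hV0 j)
  simp only [htau]
  rw [← Finset.mul_sum, ENNReal.ofReal_mul (by positivity), ENNReal.ofReal_mul (by positivity)]
  ring

end Pool.Agent.Run7.H136.LK
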