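import Pool.Agent.Run7.h894.LK.Stm
import Pool.Agent.Helper717.LT.P_sys_psd

set_option autoImplicit false

/-!
# Project LK: small matrix lemmas
-/

open MeasureTheory Set Filter Topology
open scoped Matrix

namespace Pool.Agent.Run7.H136.LK

open Pool.Agent.Run7.H894.LK
open LTd (Mat)

theorem FtF {n : ℕ} (V : Mat n) (a u d : Fin n → ℝ) :
    (Matrix.diagonal a * Vᵀ * Matrix.diagonal d)ᵀ * Matrix.diagonal u *
      (Matrix.diagonal a * Vᵀ * Matrix.diagonal d) =
    Matrix.diagonal d * (V * Matrix.diagonal (fun j => a j * u j * a j) * Vᵀ) *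
      Matrix.diagonal d := by
  have h : Matrix.diagonal (fun j => a j * u j * a j) =
      Matrix.diagonal a * Matrix.diagonal u * Matrix.diagonal a := by
    rw [Matrix.diagonal_mul_diagonal, Matrix.diagonal_mul_diagonal]
  rw [h, Matrix.transpose_mul, Matrix.transpose_mul, Matrix.transpose_transpose,
    Matrix.diagonal_transpose, Matrix.diagonal_transpose]
  simp only [Matrix.mul_assoc]

theorem dXd {n : ℕ} (d : Fin n → ℝ) (X : Mat n) (i j : Fin n) :
    (Matrix.diagonal d * X * Matrix.diagonal d) i j = d i * X i j * d j := by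
  rw [Matrix.mul_diagonal, Matrix.diagonal_mul]

theorem VxV {n : ℕ} (V : Mat n) (x : Fin n → ℝ) (i j : Fin n) :
    (V * Matrix.diagonal x * Vᵀ) i j = ∑ q, V i q * x q * V j q := by
  rw [Matrix.mul_apply]
  refine Finset.sum_congr rfl fun q _ => ?_
  rw [Matrix.mul_diagonal, Matrix.transpose_apply]

theorem tr_VxV {n : ℕ} {V : Mat n} (h : Vᵀ * V = 1) (x : Fin n → ℝ) :
    ∑ i, (V * Matrix.diagonal x * Vᵀ) i i = ∑ q, x q := by
  have h1 : (V * Matrix.diagonal x * Vᵀ).trace = (Matrix.diagonal x).trace := by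
    rw [Matrix.trace_mul_comm, ← Matrix.mul_assoc, h, Matrix.one_mul]
  simpa [Matrix.trace, Matrix.diag] using h1

theorem abs_V_le {n : ℕ} {V : Mat n} (h : V * Vᵀ = 1) (i q : Fin n) : |V i q| ≤ 1 := by
  have h1 : (V * Vᵀ) i i = 1 := by rw [h]; simp
  rw [Matrix.mul_apply] at h1
  have h2 : V i q * Vᵀ q i ≤ 1 := by
    rw [← h1]
    refine Finset.single_le_sum (f := fun q => V i q * Vᵀ q i) (fun q _ => ?_) (Finset.mem_univ q)
    simp only [Matrix.transpose_apply]
    exact mul_self_nonneg _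
  rw [Matrix.transpose_apply] at h2
  rw [← abs_one, ← sq_le_sq]
  nlinarith

theorem abs_VxV_le {n : ℕ} {V : Mat n} (h : V * Vᵀ = 1) {x : Fin n → ℝ} (hx : ∀ q, 0 ≤ x q)
    (i j : Fin n) : |(V * Matrix.diagonal x * Vᵀ) i j| ≤ ∑ q, x q := by
  rw [VxV]
  refine (Finset.abs_sum_le_sum_abs _ _).trans (Finset.sum_le_sum fun q _ => ?_)
  rw [abs_mul, abs_mul, abs_of_nonneg (hx q)]
  calc |V i q| * x q * |V j q| ≤ 1 * x q * 1 := by
        refine mul_le_mul (mul_le_mul_of_nonneg_right (abs_V_le h i q) (hx q)) (abs_V_le h j q)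
          (abs_nonneg _) (by linarith [hx q])
    _ = x q := by ring

/-- the eigenvalues are at most the trace -/
theorem eig_le_tr {n : ℕ} {B V : Mat n} {b : Fin n → ℝ} (h : Spec B V b) (hb : ∀ q, 0 ≤ b q)
    (q : Fin n) : b q ≤ ∑ i, B i i := by
  obtain ⟨h1, h2, h3⟩ := h
  rw [h3, tr_VxV h2]
  exact Finset.single_le_sum (fun q _ => hb q) (Finset.mem_univ q)

/-! ### Continuity, compact support -/

theorem sys_cR {n : ℕ} {R S Q : ℝ → Mat n} (h : LTd.Sys R S Q) (i j : Fin n) :
    Continuous fun t => R t i j :=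
  continuous_iff_continuousAt.2 fun x => (h.der x i j).continuousAt

theorem cs_of_supp {f : ℝ → ℝ} {M : ℝ} (h : ∀ x, M < |x| → f x = 0) : HasCompactSupport f := by
  refine HasCompactSupport.intro (isCompact_Icc (a := -M) (b := M)) ?_
  intro x hx
  refine h x ?_
  by_contra hcon
  exact hx (abs_le.1 (not_lt.1 hcon))

theorem sys_intR {n : ℕ} {R S Q : ℝ → Mat n} (h : LTd.Sys R S Q) (i j : Fin n) :
    Integrable fun t => R t i j := by
  obtain ⟨M, hM⟩ := h.supp
  refine (sys_cR h i j).integrable_of_hasCompactSupport (cs_of_supp (M := M) fun x hx => ?_)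
  simp [(hM x hx).1]

theorem sys_intQ {n : ℕ} {R S Q : ℝ → Mat n} (h : LTd.Sys R S Q) (i j : Fin n) :
    Integrable fun t => Q t i j := by
  obtain ⟨M, hM⟩ := h.supp
  refine (h.cQ i j).integrable_of_hasCompactSupport (cs_of_supp (M := M) fun x hx => ?_)
  simp [(hM x hx).2.2]

theorem sys_intE {n : ℕ} {R S Q : ℝ → Mat n} (h : LTd.Sys R S Q) (i j : Fin n) :
    Integrable fun t => Real.exp (2 * t) * R t i j := by
  obtain ⟨M, hM⟩ := h.supp
  have hc : Continuous fun t => Real.exp (2 * t) * R t i j := by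
    have := sys_cR h i j
    fun_prop
  refine hc.integrable_of_hasCompactSupport (cs_of_supp (M := M) fun x hx => ?_)
  simp [(hM x hx).1]

end Pool.Agent.Run7.H136.LK
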